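import Pool.Agent.Helper73.RF.GoalsC

/-! # Packet INSB (MP_c98eff_gt): the curvature of the frame bundle -/

set_option autoImplicit false

open Finset

namespace Pool.Agent.Helper67.RF

open Pool.Agent.Helper73.RF

section gen
variable {B : Type} [CommRing B] [Algebra ℝ B] (E U : Fin 3 → Derivation ℝ B B)
  (A θ : Fin 3 → Fin 3 → B)

/-- killed by all `U` -/
def Kl (x : B) : Prop := ∀ k, U k x = 0

variable {U}

theorem Kl.add {x y : B} (hx : Kl U x) (hy : Kl U y) : Kl U (x + y) := fun k => by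
  rw [map_add, hx k, hy k, add_zero]

theorem Kl.sub {x y : B} (hx : Kl U x) (hy : Kl U y) : Kl U (x - y) := fun k => by
  rw [map_sub, hx k, hy k, sub_zero]

theorem Kl.mul {x y : B} (hx : Kl U x) (hy : Kl U y) : Kl U (x * y) := fun k => by
  rw [Derivation.leibniz, hx k, hy k]
  simp

theorem Kl.smul {x : B} (r : ℝ) (hx : Kl U x) : Kl U (r • x) := fun k => by
  rw [Derivation.map_smul, hx k, smul_zero]

theorem Kl.sum {ι : Type} (s : Finset ι) {f : ι → B} (hf : ∀ i ∈ s, Kl U (f i)) :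
    Kl U (∑ i ∈ s, f i) := fun k => by
  rw [map_sum]
  exact Finset.sum_eq_zero fun i hi => hf i hi k

variable (hEU : ∀ i j f, E i (U j f) = U j (E i f))
include hEU

theorem Kl.der {x : B} (hx : Kl U x) (i : Fin 3) : Kl U (E i x) := fun k => by
  rw [← hEU, hx k, map_zero]

variable (hA : ∀ a i, Kl U (A a i)) (hθ : ∀ i a, Kl U (θ i a))
include hA

theorem kl_Fd {x : B} (hx : Kl U x) (a : Fin 3) : Kl U (FR.Fd E A a x) := by
  unfold FR.Fd
  exact Kl.sum _ fun i _ => (hA a i).mul (Kl.der E hEU hx i)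

theorem U_Fd (l a : Fin 3) (x : B) : U l (FR.Fd E A a x) = FR.Fd E A a (U l x) := by
  unfold FR.Fd
  rw [map_sum]
  refine Finset.sum_congr rfl fun i _ => ?_
  rw [Derivation.leibniz, hA a i l, hEU]
  simp

include hθ

theorem kl_om (a k : Fin 3) : Kl U (FR.om E A θ a k) := by
  have hC : ∀ a b c, Kl U (FR.C E A θ a b c) := by
    intro a b c
    unfold FR.C
    refine Kl.sum _ fun j _ => Kl.mul (Kl.add (Kl.sub (kl_Fd E A hEU hA (hA _ _) _)
      (kl_Fd E A hEU hA (hA _ _) _)) (Kl.smul _ (Kl.sum _ fun i _ => Kl.sum _ fun k _ =>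
        Kl.smul _ ((hA _ _).mul (hA _ _))))) (hθ _ _)
  unfold FR.om FR.Gam
  exact Kl.smul _ (Kl.sum _ fun b _ => Kl.sum _ fun c _ => Kl.smul _
    (Kl.smul _ (Kl.add (Kl.sub (hC _ _ _) (hC _ _ _)) (hC _ _ _))))

end gen

section alg
variable {B : Type} [CommRing B] [Algebra ℝ B]

/-- the part along the frame vanishes -/
theorem alg1 (α β : Fin 3 → B) (ω : Fin 3 → Fin 3 → B) (Lf : Fin 3 → B) :
    ∑ c, ∑ d, α c * β d * (∑ e, ((∑ k, eps k d e • ω c k) - ∑ k, eps k c e • ω d k) * Lf e)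
      + ∑ c, ∑ d, (α c * (∑ k, ω c k * ∑ e, eps k d e • β e)
        - β c * (∑ k, ω c k * ∑ e, eps k d e • α e)) * Lf d = 0 := by
  simp only [Fin.sum_univ_three, eps, Matrix.cons_val_zero, Matrix.cons_val_one,
    Matrix.cons_val, Fin.isValue, zero_smul, one_smul, neg_smul]
  ring

/-- the vertical part -/
theorem alg2 (α β : Fin 3 → B) (ε : Fin 3 → ℝ) (R N : Fin 3 → Fin 3 → B) (v : Fin 3 → B)
    (hcross : ∀ l, ∑ c, ∑ d, eps c d l • (α c * β d) = ∑ i, ε i • R i l) :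
    ∑ c, ∑ d, α c * β d * (∑ k, (-∑ l, eps c d l • N l k) * (-∑ j, R j k * v j))
      = ∑ i, ∑ j, ε i • ((∑ l, ∑ k, R i l * R j k * N l k) * v j) := by
  have h1 : ∑ c, ∑ d, α c * β d * (∑ k, (-∑ l, eps c d l • N l k) * (-∑ j, R j k * v j)) =
      ∑ l, (∑ c, ∑ d, eps c d l • (α c * β d)) * (∑ k, N l k * ∑ j, R j k * v j) := by
    simp only [Fin.sum_univ_three, Algebra.smul_def]
    ring
  rw [h1]
  simp only [hcross]
  simp only [Fin.sum_univ_three, Algebra.smul_def]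
  ring

end alg

/-- sums of derivations -/
theorem dsum {B : Type} [CommRing B] [Algebra ℝ B] (r : Fin 3 → B) (D : Fin 3 → Derivation ℝ B B)
    (g : B) : (∑ i, r i • D i) g = ∑ i, r i * D i g := by
  rw [Fin.sum_univ_three, Fin.sum_univ_three]
  rfl

theorem insb (hfra : FraStmt) : InsbStmt := by
  intro T P hP A θ S0 hF a b f0
  obtain ⟨f, hf⟩ : ∃ f : P.B, f = f0 := ⟨f0, rfl⟩
  have fra1 := (hfra P.B P.E A θ ⟨hP.EE, hF.At, hF.tA⟩).1
  have fra4 := (hfra P.B P.E A θ ⟨hP.EE, hF.At, hF.tA⟩).2.2.2.1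
  have fra5 := (hfra P.B P.E A θ ⟨hP.EE, hF.At, hF.tA⟩).2.2.2.2.1
  have fra6 := (hfra P.B P.E A θ ⟨hP.EE, hF.At, hF.tA⟩).2.2.2.2.2.1
  have hA : ∀ a i, Kl P.U (A a i) := fun a i => (hF.XA a i).1
  have hθ : ∀ i a, Kl P.U (θ i a) := fun i a => (hF.Xt i a).1
  have hω : ∀ a k l, P.U l (FR.om P.E A θ a k) = 0 := fun a k => kl_om P.E A θ hP.EU hA hθ a k
  obtain ⟨ω, hωdef⟩ : ∃ ω, ω = FR.om P.E A θ := ⟨_, rfl⟩
  rw [← hωdef] at hω
  rw [← hωdef] at fra4
  -- the horizontal lifts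
  obtain ⟨L, hLdef⟩ : ∃ L : Fin 3 → Derivation ℝ P.B P.B,
      L = fun b => ∑ i, A b i • P.E i + ∑ k, ω b k • P.U k := ⟨_, rfl⟩
  have hL : ∀ c g, L c g = FR.Fd P.E A c g + ∑ k, ω c k * P.U k g := by
    intro c g
    rw [hLdef]
    show (∑ i, A c i • P.E i) g + (∑ k, ω c k • P.U k) g = _
    rw [dsum, dsum]
    rfl
  have hH : ∀ a (g : P.B), (P.toFBD A θ S0).H a g = ∑ c, P.R a c * L c g := by
    intro a g
    rw [← dsum, hLdef, hωdef]
    rfl
  have hFadd : ∀ c x y, FR.Fd P.E A c (x + y) = FR.Fd P.E A c x + FR.Fd P.E A c y := by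
    intro c x y
    simp only [FR.Fd, map_add, mul_add, Finset.sum_add_distrib]
  have hFmul : ∀ c x y, FR.Fd P.E A c (x * y) = x * FR.Fd P.E A c y + y * FR.Fd P.E A c x := by
    intro c x y
    simp only [FR.Fd, Derivation.leibniz, smul_eq_mul, Finset.mul_sum]
    rw [← Finset.sum_add_distrib]
    refine Finset.sum_congr rfl fun i _ => ?_
    ring
  have hFsum : ∀ c (g : Fin 3 → P.B), FR.Fd P.E A c (∑ k, g k) = ∑ k, FR.Fd P.E A c (g k) := by
    intro c g
    rw [Fin.sum_univ_three, Fin.sum_univ_three, hFadd, hFadd]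
  -- the bracket of the lifts
  have hLL : ∀ c d, L c (L d f) = FR.Fd P.E A c (FR.Fd P.E A d f)
      + ∑ k, (ω d k * FR.Fd P.E A c (P.U k f) + P.U k f * FR.Fd P.E A c (ω d k))
      + ∑ l, ω c l * (FR.Fd P.E A d (P.U l f) + ∑ k, ω d k * P.U l (P.U k f)) := by
    intro c d
    rw [hL c, hL d, hFadd, hFsum]
    simp only [hFmul]
    congr 1
    refine Finset.sum_congr rfl fun l _ => ?_
    rw [map_add, U_Fd P.E A hP.EU hA, map_sum]
    congr 2
    refine Finset.sum_congr rfl fun k _ => ?_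
    rw [Derivation.leibniz, hω d k l]
    simp
  have hbr : ∀ c d, L c (L d f) - L d (L c f) = ∑ e, FR.C P.E A θ c d e * L e f
      + ∑ k, FR.Om P.E A θ c d k * P.U k f := by
    intro c d
    have h1 := fra1 c d f
    have h2 : ∑ l, ∑ k, ω c l * ω d k * (P.U l (P.U k f) - P.U k (P.U l f)) =
        ∑ l, ∑ k, ω c l * ω d k * ∑ m, eps l k m • P.U m f := by
      refine Finset.sum_congr rfl fun l _ => Finset.sum_congr rfl fun k _ => ?_
      rw [hP.UU]
    rw [hLL c d, hLL d c]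
    simp only [hL, FR.Om, ← hωdef]
    simp only [Fin.sum_univ_three, Algebra.smul_def] at h1 h2 ⊢
    linear_combination h1 + h2
  -- derivative of `R`
  have hLR : ∀ c b d, L c (P.R b d) = ∑ k, ω c k * ∑ e, eps k d e • P.R b e := by
    intro c b d
    rw [hL]
    have h1 : FR.Fd P.E A c (P.R b d) = 0 := by
      unfold FR.Fd
      exact Finset.sum_eq_zero fun i _ => by rw [hP.ER, mul_zero]
    rw [h1, zero_add]
    refine Finset.sum_congr rfl fun k _ => ?_
    rw [hP.UR]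
  have hHH : ∀ a b, (∑ c, P.R a c * L c (∑ d, P.R b d * L d f)) =
      ∑ c, ∑ d, (P.R a c * P.R b d * L c (L d f) + P.R a c * L c (P.R b d) * L d f) := by
    intro a b
    refine Finset.sum_congr rfl fun c _ => ?_
    rw [map_sum, Finset.mul_sum]
    refine Finset.sum_congr rfl fun d _ => ?_
    rw [Derivation.leibniz]
    simp only [smul_eq_mul]
    ring
  have hmain : (∑ c, P.R a c * L c (∑ d, P.R b d * L d f))
        - (∑ c, P.R b c * L c (∑ d, P.R a d * L d f)) =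
      ∑ c, ∑ d, P.R a c * P.R b d * (L c (L d f) - L d (L c f)) +
        ∑ c, ∑ d, (P.R a c * L c (P.R b d) - P.R b c * L c (P.R a d)) * L d f := by
    rw [hHH a b, hHH b a]
    have h1 : ∑ c, ∑ d, (P.R b c * P.R a d * L c (L d f) + P.R b c * L c (P.R a d) * L d f) =
        ∑ c, ∑ d, P.R a c * P.R b d * L d (L c f) + ∑ c, ∑ d, P.R b c * L c (P.R a d) * L d f := by
      simp only [Finset.sum_add_distrib]
      congr 1
      rw [Finset.sum_comm]
      refine Finset.sum_congr rfl fun c _ => Finset.sum_congr rfl fun d _ => ?_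
      ring
    rw [h1]
    simp only [Finset.sum_add_distrib, mul_sub, sub_mul, Finset.sum_sub_distrib]
    ring
  have hCw : ∀ c d e, FR.C P.E A θ c d e =
      (∑ k, eps k d e • ω c k) - ∑ k, eps k c e • ω d k := by
    intro c d e
    rw [fra5, fra4, fra4]
  have ha1 := alg1 (P.R a) (P.R b) ω (fun e => L e f)
  have ha2 := alg2 (P.R a) (P.R b) (fun i => eps a b i) P.R (FR.N P.E A θ) (fun j => P.V j f)
    (fun l => hP.cross a b l)
  have hgoal : (∑ c, P.R a c * L c (∑ d, P.R b d * L d f))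
        - (∑ c, P.R b c * L c (∑ d, P.R a d * L d f)) =
      ∑ i, ∑ j, eps a b i • ((∑ l, ∑ k, P.R i l * P.R j k * FR.N P.E A θ l k) * P.V j f) := by
    rw [hmain]
    simp only [hbr, hLR]
    simp only [hCw, fra6, hP.UeV]
    rw [← ha2]
    simp only [mul_add, Finset.sum_add_distrib] at ha1 ⊢
    linear_combination ha1
  subst hf
  have e1 : (P.toFBD A θ S0).H a ((P.toFBD A θ S0).H b f)
      = ∑ c, P.R a c * L c (∑ d, P.R b d * L d f) := by
    rw [hH a, hH b]
  have e2 : (P.toFBD A θ S0).H b ((P.toFBD A θ S0).H a f)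
      = ∑ c, P.R b c * L c (∑ d, P.R a d * L d f) := by
    rw [hH b, hH a]
  rw [e1, e2]
  exact hgoal

end Pool.Agent.Helper67.RF
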