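import Pool.Agent.Helper64.RF.GoalsL

/-! # Packet LNK (MP_c98eff_gt): the Levi-Civita connection of a matrix field -/

open Quaternion

namespace Pool.Agent.Helper67.RF

open Pool.Agent.Helper64.RF
open Pool.Agent.Helper47.RF (MF IsMetric Gam GamL Rup eps E Sm qe)

/-! ### smooth functions -/

section ss
variable {F : Type*} [NormedAddCommGroup F] [NormedSpace ℝ F]

theorem ss_const (c : F) : SS (fun _ : ℍ[ℝ] => c) := ⟨fun _ _ _ => rfl, fun _ _ => contDiffAt_const⟩

theorem ss_add {f g : ℍ[ℝ] → F} (hf : SS f) (hg : SS g) : SS (fun x => f x + g x) :=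
  ⟨fun r hr x => by simp only [hf.1 r hr x, hg.1 r hr x], fun x hx => (hf.2 x hx).add (hg.2 x hx)⟩

theorem ss_sub {f g : ℍ[ℝ] → F} (hf : SS f) (hg : SS g) : SS (fun x => f x - g x) :=
  ⟨fun r hr x => by simp only [hf.1 r hr x, hg.1 r hr x], fun x hx => (hf.2 x hx).sub (hg.2 x hx)⟩

theorem ss_smul {f : ℍ[ℝ] → ℝ} (hf : SS f) (c : F) : SS (fun x => f x • c) :=
  ⟨fun r hr x => by simp only [hf.1 r hr x], fun x hx => (hf.2 x hx).smul contDiffAt_const⟩

theorem ss_sum {ι : Type*} (s : Finset ι) {f : ι → ℍ[ℝ] → F} (hf : ∀ i ∈ s, SS (f i)) :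
    SS (fun x => ∑ i ∈ s, f i x) :=
  ⟨fun r hr x => Finset.sum_congr rfl fun i hi => (hf i hi).1 r hr x,
    fun x hx => ContDiffAt.sum fun i hi => (hf i hi).2 x hx⟩

theorem ss_mul {f g : ℍ[ℝ] → ℝ} (hf : SS f) (hg : SS g) : SS (fun x => f x * g x) :=
  ⟨fun r hr x => by simp only [hf.1 r hr x, hg.1 r hr x], fun x hx => (hf.2 x hx).mul (hg.2 x hx)⟩

theorem ss_inv {f : ℍ[ℝ] → ℝ} (hf : SS f) (h0 : ∀ x, f x ≠ 0) : SS (fun x => (f x)⁻¹) :=
  ⟨fun r hr x => by simp only [hf.1 r hr x], fun x hx => (hf.2 x hx).inv (h0 x)⟩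

end ss

theorem ss_of_sm {f : ℍ[ℝ] → ℝ} (h : Sm f) : SS f :=
  ⟨fun r hr x => h.hom r x hr, fun x hx =>
    (h.cd x hx).contDiffAt (isOpen_compl_singleton.mem_nhds hx)⟩

theorem iot_single (i : Fin 3) : iot (Pi.single i (1 : ℝ)) = qe i := by
  fin_cases i <;> ext <;> simp [qe, iot, Pi.single_apply]

theorem Ed_single {F : Type*} [NormedAddCommGroup F] [NormedSpace ℝ F] (i : Fin 3)
    (f : ℍ[ℝ] → F) (x : ℍ[ℝ]) : Ed (Pi.single i (1 : ℝ)) f x = fderiv ℝ f x (x * qe i) := by
  unfold Ed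
  rw [iot_single]

theorem Ed_expand (v : W) (f : ℍ[ℝ] → ℝ) (x : ℍ[ℝ]) : Ed v f x = ∑ i, v i * E i f x := by
  have h1 : v = ∑ i, v i • (Pi.single i (1 : ℝ) : W) := by
    funext j
    simp [Pi.single_apply]
  have h2 : ∀ s : Finset (Fin 3), Ed (∑ i ∈ s, v i • (Pi.single i (1 : ℝ) : W)) f x =
      ∑ i ∈ s, v i * E i f x := by
    intro s
    induction s using Finset.induction_on with
    | empty => simp [Ed_zero]
    | insert a s ha ih =>
      rw [Finset.sum_insert ha, Finset.sum_insert ha, Ed_add, Ed_smul, ih, Ed_single, smul_eq_mul]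
      rfl
  conv_lhs => rw [h1]
  exact h2 _

theorem ss_E {f : ℍ[ℝ] → ℝ} (h : SS f) (i : Fin 3) : SS (E i f) := by
  have h1 : E i f = Ed (Pi.single i (1 : ℝ)) f := by
    funext x
    rw [Ed_single]
    rfl
  rw [h1]
  exact h.ed _

theorem Ed_sum {ι : Type*} (s : Finset ι) {f : ι → ℍ[ℝ] → ℝ} {x : ℍ[ℝ]} (hx : x ≠ 0)
    (hf : ∀ i ∈ s, SS (f i)) (v : W) :
    Ed v (fun y => ∑ i ∈ s, f i y) x = ∑ i ∈ s, Ed v (f i) x := by
  unfold Ed
  rw [fderiv_fun_sum fun i hi => (hf i hi).differentiableAt hx]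
  simp

theorem Ed_mul_const {f : ℍ[ℝ] → ℝ} {x : ℍ[ℝ]} (hx : x ≠ 0) (hf : SS f) (c : ℝ) (v : W) :
    Ed v (fun y => f y * c) x = Ed v f x * c := by
  unfold Ed
  rw [fderiv_mul_const (hf.differentiableAt hx)]
  simp [mul_comm]

/-- evaluation commutes with the frame derivatives -/
theorem Ed_apply {F : Type*} [NormedAddCommGroup F] [NormedSpace ℝ F]
    {G : ℍ[ℝ] → W →L[ℝ] W →L[ℝ] F} (hG : SS G) {x : ℍ[ℝ]} (hx : x ≠ 0) (u v z : W) :
    Ed u G x v z = Ed u (fun y => G y v z) x := by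
  unfold Ed
  have h := (hG.differentiableAt hx).hasFDerivAt
  have h2 := h.clm_apply (hasFDerivAt_const v x)
  have h3 := h2.clm_apply (hasFDerivAt_const z x)
  rw [h3.fderiv]
  simp

/-! ### evaluation -/

theorem bil_apply (M : Matrix (Fin 3) (Fin 3) ℝ) (a b : W) :
    bil M a b = ∑ i, ∑ j, M i j * (a i * b j) := by
  unfold bil
  simp [ContinuousLinearMap.sum_apply]

theorem toG_apply (gm : MF) (x : ℍ[ℝ]) (a b : W) :
    toG gm x a b = ∑ i, ∑ j, gm x i j * (a i * b j) := bil_apply _ _ _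

theorem toC_apply (gm : MF) (x : ℍ[ℝ]) (v a : W) (l : Fin 3) :
    toC gm x v a l = ∑ i, ∑ j, Gam gm i j l x * (v i * a j) := by
  unfold toC
  simp only [ContinuousLinearMap.sum_apply, ContinuousLinearMap.smul_apply,
    ContinuousLinearMap.smulRight_apply, ContinuousLinearMap.proj_apply, Finset.sum_apply,
    Pi.smul_apply, smul_eq_mul, Pi.single_apply]
  refine Finset.sum_congr rfl fun i _ => Finset.sum_congr rfl fun j _ => ?_
  rw [Finset.sum_eq_single l]
  · simp
  · intro k _ hk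
    simp [Ne.symm hk]
  · simp

/-! ### the metric -/

section metric
variable {gm : MF} (hg : IsMetric gm)
include hg

theorem symm (x : ℍ[ℝ]) (i j : Fin 3) : gm x i j = gm x j i := by
  have h := (hg.pos x).isHermitian.apply i j
  simpa using h.symm

theorem symmf (i j : Fin 3) : (fun y => gm y i j) = fun y => gm y j i := by
  funext y
  exact symm hg y i j

theorem det_pos (x : ℍ[ℝ]) : 0 < (gm x).det := (hg.pos x).det_pos

theorem inv_mul (x : ℍ[ℝ]) : (gm x)⁻¹ * gm x = 1 :=
  Matrix.nonsing_inv_mul _ (isUnit_iff_ne_zero.mpr (det_pos hg x).ne')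

theorem inv_symm (x : ℍ[ℝ]) (i j : Fin 3) : (gm x)⁻¹ i j = (gm x)⁻¹ j i := by
  have h1 : Matrix.transpose (gm x) = gm x := by
    ext i j
    exact symm hg x j i
  have h2 : Matrix.transpose ((gm x)⁻¹) = (gm x)⁻¹ := by
    rw [Matrix.transpose_nonsing_inv, h1]
  have h3 := congrFun (congrFun h2 j) i
  simpa using h3

theorem ss_g (i j : Fin 3) : SS (fun x => gm x i j) := ss_of_sm (hg.sm i j)

theorem ss_det : SS (fun x => (gm x).det) := by
  have h : (fun x => (gm x).det) = fun x =>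
      gm x 0 0 * gm x 1 1 * gm x 2 2 - gm x 0 0 * gm x 1 2 * gm x 2 1 -
        gm x 0 1 * gm x 1 0 * gm x 2 2 + gm x 0 1 * gm x 1 2 * gm x 2 0 +
        gm x 0 2 * gm x 1 0 * gm x 2 1 - gm x 0 2 * gm x 1 1 * gm x 2 0 := by
    funext x
    rw [Matrix.det_fin_three]
  rw [h]
  have m3 : ∀ a b c d e f : Fin 3, SS (fun x => gm x a b * gm x c d * gm x e f) :=
    fun a b c d e f => ss_mul (ss_mul (ss_g hg a b) (ss_g hg c d)) (ss_g hg e f)
  exact ss_sub (ss_add (ss_add (ss_sub (ss_sub (m3 _ _ _ _ _ _) (m3 _ _ _ _ _ _))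
    (m3 _ _ _ _ _ _)) (m3 _ _ _ _ _ _)) (m3 _ _ _ _ _ _)) (m3 _ _ _ _ _ _)

theorem ss_adj (i j : Fin 3) : SS (fun x => (gm x).adjugate i j) := by
  have h : (fun x => (gm x).adjugate i j) = fun x =>
      gm x (j + 1) (i + 1) * gm x (j + 2) (i + 2) - gm x (j + 1) (i + 2) * gm x (j + 2) (i + 1) := by
    funext x
    rw [Matrix.adjugate_fin_three]
    fin_cases i <;> fin_cases j <;> simp <;> ring
  rw [h]
  exact ss_sub (ss_mul (ss_g hg _ _) (ss_g hg _ _)) (ss_mul (ss_g hg _ _) (ss_g hg _ _))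

theorem ss_ginv (i j : Fin 3) : SS (fun x => (gm x)⁻¹ i j) := by
  have h : (fun x => (gm x)⁻¹ i j) = fun x => ((gm x).det)⁻¹ * (gm x).adjugate i j := by
    funext x
    rw [Matrix.inv_def, Ring.inverse_eq_inv', Matrix.smul_apply, smul_eq_mul]
  rw [h]
  exact ss_mul (ss_inv (ss_det hg) fun x => (det_pos hg x).ne') (ss_adj hg i j)

theorem ss_GamL (i j k : Fin 3) : SS (GamL gm i j k) := by
  have h : GamL gm i j k = fun x => (E i (fun y => gm y j k) x + E j (fun y => gm y i k) x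
      - E k (fun y => gm y i j) x
      + 2 * ∑ l, (eps i j l * gm x l k - eps i k l * gm x l j - eps j k l * gm x l i)) * (1 / 2) := by
    funext x
    unfold GamL
    ring
  rw [h]
  have hE : ∀ a b c : Fin 3, SS (E a (fun y => gm y b c)) := fun a b c => ss_E (ss_g hg b c) a
  refine ss_mul (ss_add (ss_sub (ss_add (hE _ _ _) (hE _ _ _)) (hE _ _ _))
    (ss_mul (ss_const 2) (ss_sum _ fun l _ => ?_))) (ss_const _)
  exact ss_sub (ss_sub (ss_mul (ss_const _) (ss_g hg _ _)) (ss_mul (ss_const _) (ss_g hg _ _)))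
    (ss_mul (ss_const _) (ss_g hg _ _))

theorem ss_Gam (i j k : Fin 3) : SS (Gam gm i j k) := by
  unfold Gam
  exact ss_sum _ fun m _ => ss_mul (ss_ginv hg k m) (ss_GamL hg i j m)

theorem ss_toG : SS (toG gm) := by
  unfold toG bil
  exact ss_sum _ fun i _ => ss_sum _ fun j _ => ss_smul (ss_g hg i j) _

theorem ss_toC : SS (toC gm) := by
  unfold toC
  exact ss_sum _ fun i _ => ss_sum _ fun j _ => ss_sum _ fun k _ => ss_smul (ss_Gam hg i j k) _

/-- lowering the index -/
theorem lower (x : ℍ[ℝ]) (i j l : Fin 3) :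
    ∑ k, Gam gm i j k x * gm x k l = GamL gm i j l x := by
  unfold Gam
  simp only [Finset.sum_mul]
  rw [Finset.sum_comm]
  have h1 : ∀ m, ∑ k, (gm x)⁻¹ k m * GamL gm i j m x * gm x k l =
      (if m = l then (1 : ℝ) else 0) * GamL gm i j m x := by
    intro m
    have h2 := congrFun (congrFun (inv_mul hg x) m) l
    rw [Matrix.mul_apply, Matrix.one_apply] at h2
    rw [← h2, Finset.sum_mul]
    refine Finset.sum_congr rfl fun k _ => ?_
    rw [inv_symm hg x k m]
    ring
  simp only [h1]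
  simp

theorem koszul (x : ℍ[ℝ]) (l i j : Fin 3) :
    GamL gm l i j x + GamL gm l j i x = E l (fun y => gm y i j) x := by
  unfold GamL
  rw [symmf hg j i]
  have h1 : ∀ m, eps j i m = -eps i j m := fun m => by unfold eps; ring
  simp only [h1]
  rw [← add_div, div_eq_iff (by norm_num : (2 : ℝ) ≠ 0)]
  have h2 : ∑ m, (eps l i m * gm x m j - eps l j m * gm x m i - eps i j m * gm x m l) +
      ∑ m, (eps l j m * gm x m i - eps l i m * gm x m j - -eps i j m * gm x m l) = 0 := by
    rw [← Finset.sum_add_distrib]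
    apply Finset.sum_eq_zero
    intro m _
    ring
  linear_combination 2 * h2

theorem tor (x : ℍ[ℝ]) (i j k : Fin 3) : Gam gm i j k x - Gam gm j i k x = 2 * eps i j k := by
  unfold Gam
  rw [← Finset.sum_sub_distrib]
  have h1 : ∀ m, (gm x)⁻¹ k m * GamL gm i j m x - (gm x)⁻¹ k m * GamL gm j i m x =
      ∑ l, 2 * eps i j l * ((gm x)⁻¹ k m * gm x m l) := by
    intro m
    rw [← mul_sub]
    have h2 : GamL gm i j m x - GamL gm j i m x = ∑ l, 2 * eps i j l * gm x m l := by
      unfold GamL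
      rw [symmf hg j i, ← sub_div, div_eq_iff (by norm_num : (2 : ℝ) ≠ 0)]
      have h3 : ∀ l, eps j i l = -eps i j l := fun l => by unfold eps; ring
      simp only [h3]
      have h4 : ∑ l, (eps i j l * gm x l m - eps i m l * gm x l j - eps j m l * gm x l i) -
          ∑ l, (-eps i j l * gm x l m - eps j m l * gm x l i - eps i m l * gm x l j) =
          ∑ l, 2 * eps i j l * gm x m l := by
        rw [← Finset.sum_sub_distrib]
        refine Finset.sum_congr rfl fun l _ => ?_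
        rw [symm hg x l m]
        ring
      linear_combination 2 * h4
    rw [h2, Finset.mul_sum]
    refine Finset.sum_congr rfl fun l _ => ?_
    ring
  simp only [h1]
  rw [Finset.sum_comm]
  have h2 : ∀ l, ∑ m, 2 * eps i j l * ((gm x)⁻¹ k m * gm x m l) =
      2 * eps i j l * (if k = l then (1 : ℝ) else 0) := by
    intro l
    rw [← Finset.mul_sum]
    have h3 := congrFun (congrFun (inv_mul hg x) k) l
    rw [Matrix.mul_apply, Matrix.one_apply] at h3
    rw [h3]
  simp only [h2]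
  simp

end metric

theorem br_apply (u v : W) (m : Fin 3) : br u v m = 2 * ∑ i, ∑ j, eps i j m * (u i * v j) := by
  rw [br_eq]
  fin_cases m <;> simp [Fin.sum_univ_three, eps] <;> ring

theorem alg (Γ : Fin 3 → Fin 3 → Fin 3 → ℝ) (D : Fin 3 → Fin 3 → Fin 3 → ℝ)
    (e : Fin 3 → Fin 3 → Fin 3 → ℝ) (u v z : W) (l : Fin 3) :
    (∑ j, ∑ k, (∑ i, u i * D i j k) * (v j * z k)) - (∑ j, ∑ k, (∑ i, v i * D i j k) * (u j * z k))
      + (∑ i, ∑ m, Γ i m l * (u i * (∑ j, ∑ k, Γ j k m * (v j * z k))))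
      - (∑ i, ∑ m, Γ i m l * (v i * ∑ j, ∑ k, Γ j k m * (u j * z k)))
      - (∑ m, ∑ k, Γ m k l * ((2 * ∑ i, ∑ j, e i j m * (u i * v j)) * z k)) =
    ∑ i, ∑ j, ∑ k, (D i j k - D j i k + ∑ m, (Γ j k m * Γ i m l - Γ i k m * Γ j m l)
      - 2 * ∑ m, e i j m * Γ m k l) * u i * v j * z k := by
  simp only [Fin.sum_univ_three]
  ring

theorem lnk : LNK := by
  intro gm hg
  have hC := ss_toC hg
  have hGs := ss_toG hg
  refine ⟨⟨hGs, ?_, ?_⟩, ⟨hC, ?_, ?_⟩, ?_, ?_⟩
  · intro x a b
    rw [toG_apply, toG_apply, Finset.sum_comm]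
    refine Finset.sum_congr rfl fun i _ => Finset.sum_congr rfl fun j _ => ?_
    rw [symm hg x j i]
    ring
  · intro x _ a ha
    have h1 := (hg.pos x).dotProduct_mulVec_pos ha
    have h2 : star a ⬝ᵥ Matrix.mulVec (gm x) a = toG gm x a a := by
      rw [toG_apply]
      simp only [dotProduct, Matrix.mulVec, Pi.star_apply, star_trivial, Finset.mul_sum]
      refine Finset.sum_congr rfl fun i _ => Finset.sum_congr rfl fun j _ => ?_
      ring
    rw [← h2]
    exact h1
  · intro x hx v a b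
    rw [Ed_apply hGs hx]
    have h1 : (fun y => toG gm y a b) = fun y => ∑ i, ∑ j, gm y i j * (a i * b j) := by
      funext y
      exact toG_apply gm y a b
    rw [h1, Ed_sum _ hx fun i _ => ss_sum _ fun j _ => ss_mul (ss_g hg i j) (ss_const _)]
    have h2 : ∀ i, Ed v (fun y => ∑ j, gm y i j * (a i * b j)) x =
        ∑ j, (∑ l, v l * (GamL gm l i j x + GamL gm l j i x)) * (a i * b j) := by
      intro i
      rw [Ed_sum _ hx fun j _ => ss_mul (ss_g hg i j) (ss_const _)]
      refine Finset.sum_congr rfl fun j _ => ?_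
      rw [Ed_mul_const hx (ss_g hg i j), Ed_expand]
      congr 1
      refine Finset.sum_congr rfl fun l _ => ?_
      rw [koszul hg x l i j]
    simp only [h2]
    rw [toG_apply, toG_apply]
    simp only [toC_apply]
    have h3 : ∀ l i j, GamL gm l i j x = ∑ k, Gam gm l i k x * gm x k j :=
      fun l i j => (lower hg x l i j).symm
    simp only [h3]
    have hs : ∀ i j, gm x i j = gm x j i := symm hg x
    have s10 := hs 1 0
    have s20 := hs 2 0
    have s21 := hs 2 1
    simp only [Fin.sum_univ_three, s10, s20, s21]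
    ring
  · intro x _ v a
    funext l
    rw [Pi.sub_apply, toC_apply, toC_apply, br_apply]
    have h1 : ∑ i, ∑ j, Gam gm i j l x * (a i * v j) = ∑ i, ∑ j, Gam gm j i l x * (v i * a j) := by
      rw [Finset.sum_comm]
      refine Finset.sum_congr rfl fun i _ => Finset.sum_congr rfl fun j _ => ?_
      ring
    rw [h1, ← Finset.sum_sub_distrib, Finset.mul_sum]
    refine Finset.sum_congr rfl fun i _ => ?_
    rw [← Finset.sum_sub_distrib, Finset.mul_sum]
    refine Finset.sum_congr rfl fun j _ => ?_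
    have h2 := tor hg x i j l
    linear_combination (v i * a j) * h2
  · intro x
    ext i j
    show toG gm x (Pi.single i 1) (Pi.single j 1) = gm x i j
    rw [toG_apply, Finset.sum_eq_single i]
    · rw [Finset.sum_eq_single j]
      · simp
      · intro k _ hk
        simp [hk]
      · simp
    · intro k _ hk
      simp [hk]
    · simp
  · intro x hx u v z l
    have hed : ∀ u v z : W, Ed u (toC gm) x v z l =
        ∑ j, ∑ k, (∑ i, u i * E i (Gam gm j k l) x) * (v j * z k) := by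
      intro u v z
      rw [Ed_apply hC hx]
      have h0 : SS (fun y => toC gm y v z) := hC.comp_smooth (φ := fun G => G v z) fun _ _ => by
        exact ((contDiffAt_id.clm_apply contDiffAt_const).clm_apply contDiffAt_const)
      have h1 : Ed u (fun y => toC gm y v z) x l = Ed u (fun y => toC gm y v z l) x := by
        unfold Ed
        rw [(hasFDerivAt_pi'.mp (h0.differentiableAt hx).hasFDerivAt l).fderiv]
        rfl
      rw [h1]
      have h2 : (fun y => toC gm y v z l) = fun y => ∑ j, ∑ k, Gam gm j k l y * (v j * z k) := by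
        funext y
        exact toC_apply gm y v z l
      rw [h2, Ed_sum _ hx fun i _ => ss_sum _ fun j _ => ss_mul (ss_Gam hg i j l) (ss_const _)]
      refine Finset.sum_congr rfl fun j _ => ?_
      rw [Ed_sum _ hx fun k _ => ss_mul (ss_Gam hg j k l) (ss_const _)]
      refine Finset.sum_congr rfl fun k _ => ?_
      rw [Ed_mul_const hx (ss_Gam hg j k l), Ed_expand]
    unfold Pool.Agent.Helper64.RF.Rm
    rw [Pi.sub_apply, Pi.sub_apply, Pi.add_apply, Pi.sub_apply, hed, hed]
    simp only [toC_apply, br_apply]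
    have h3 := alg (fun i j k => Gam gm i j k x) (fun i j k => E i (Gam gm j k l) x) eps u v z l
    rw [h3]
    rfl

end Pool.Agent.Helper67.RF
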