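import Pool.Agent.Helper73.RF.GoalsF
import Pool.Agent.Helper47.RF.CoreGoals

/-! # Packet CHO (MP_c98eff_gt): Cholesky -/

set_option autoImplicit false

open Finset Pool.Agent.Helper47.RF

namespace Pool.Agent.Helper67.RF

open Pool.Agent.Helper73.RF

/-- the frame matrix -/
noncomputable def ct (a b c e p q r : ℝ) : Matrix (Fin 3) (Fin 3) ℝ :=
  !![p, 0, 0; b * p⁻¹, q * p⁻¹, 0; c * p⁻¹, (a * e - b * c) * (p⁻¹ * q⁻¹), r * q⁻¹]

/-- its inverse -/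
noncomputable def cA (a b c d e p q r : ℝ) : Matrix (Fin 3) (Fin 3) ℝ :=
  !![p⁻¹, 0, 0; -(b * (p⁻¹ * q⁻¹)), p * q⁻¹, 0;
    (b * e - c * d) * (q⁻¹ * r⁻¹), -((a * e - b * c) * (q⁻¹ * r⁻¹)), q * r⁻¹]

theorem cA_mul (a b c d e p q r : ℝ) (hp : p ≠ 0) (hq : q ≠ 0) (hr : r ≠ 0)
    (h1 : p ^ 2 = a) (h2 : q ^ 2 = a * d - b ^ 2) :
    cA a b c d e p q r * ct a b c e p q r = 1 := by
  subst h1
  ext i j
  fin_cases i <;> fin_cases j <;>
    simp [cA, ct, Matrix.mul_apply, Fin.sum_univ_three] <;> field_simp <;>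
    first | ring1 | linear_combination c * h2

theorem ct_mul (a b c d e f p q r : ℝ) (hp : p ≠ 0) (hq : q ≠ 0)
    (h1 : p ^ 2 = a) (h2 : q ^ 2 = a * d - b ^ 2)
    (h3 : r ^ 2 = a * d * f + 2 * b * c * e - a * e ^ 2 - d * c ^ 2 - f * b ^ 2) :
    ct a b c e p q r * (ct a b c e p q r).transpose = !![a, b, c; b, d, e; c, e, f] := by
  subst h1
  ext i j
  fin_cases i <;> fin_cases j <;>
    simp [ct, Matrix.mul_apply, Fin.sum_univ_three, Matrix.transpose_apply] <;> field_simp <;>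
    first | ring1 | linear_combination h2 | linear_combination (c ^ 2 - p ^ 2 * f) * h2 + p ^ 2 * h3

theorem cho (hC : Goal_C1) : ChoStmt := by
  intro g hg
  obtain ⟨hconst, hadd, hsub, hmul, hneg, -, hcomp, -, -⟩ := hC
  have hsy : ∀ x i j, g x i j = g x j i := fun x i j => by
    have h := (hg.pos x).1
    have h2 := congrFun (congrFun h i) j
    simpa using h2.symm
  -- positivity
  let D2 : HH → ℝ := fun x => g x 0 0 * g x 1 1 - g x 0 1 ^ 2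
  let D3 : HH → ℝ := fun x => g x 0 0 * g x 1 1 * g x 2 2 + 2 * g x 0 1 * g x 0 2 * g x 1 2
    - g x 0 0 * g x 1 2 ^ 2 - g x 1 1 * g x 0 2 ^ 2 - g x 2 2 * g x 0 1 ^ 2
  have p1 : ∀ x, 0 < g x 0 0 := fun x => (hg.pos x).diag_pos
  have p3 : ∀ x, 0 < D3 x := fun x => by
    have h := (hg.pos x).det_pos
    rw [Matrix.det_fin_three] at h
    rw [hsy x 1 0, hsy x 2 0, hsy x 2 1] at h
    show 0 < g x 0 0 * g x 1 1 * g x 2 2 + 2 * g x 0 1 * g x 0 2 * g x 1 2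
      - g x 0 0 * g x 1 2 ^ 2 - g x 1 1 * g x 0 2 ^ 2 - g x 2 2 * g x 0 1 ^ 2
    linarith
  have p2 : ∀ x, 0 < D2 x := fun x => by
    have hv : (![-g x 0 1, g x 0 0, 0] : Fin 3 → ℝ) ≠ 0 := fun h => by
      have := congrFun h 1
      simp at this
      exact (p1 x).ne' this
    have h := (hg.pos x).dotProduct_mulVec_pos hv
    simp [Matrix.mulVec, dotProduct, Fin.sum_univ_three] at h
    rw [hsy x 1 0] at h
    show 0 < g x 0 0 * g x 1 1 - g x 0 1 ^ 2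
    have h2 : 0 < g x 0 0 * (g x 0 0 * g x 1 1 - g x 0 1 ^ 2) := by nlinarith
    exact (mul_pos_iff_of_pos_left (p1 x)).1 h2
  -- smoothness
  have hsqrt : ∀ f : HH → ℝ, Sm f → (∀ x, 0 < f x) → Sm (fun x => Real.sqrt (f x)) := by
    intro f hf hp
    refine hcomp f Real.sqrt (Set.Ioi 0) isOpen_Ioi ?_ hf fun x _ => hp x
    intro y hy
    exact (Real.contDiffAt_sqrt (ne_of_gt hy)).contDiffWithinAt
  have hinv : ∀ f : HH → ℝ, Sm f → (∀ x, 0 < f x) → Sm (fun x => (f x)⁻¹) := by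
    intro f hf hp
    refine hcomp f (fun y => y⁻¹) (Set.Ioi 0) isOpen_Ioi ?_ hf fun x _ => hp x
    intro y hy
    exact (contDiffAt_inv ℝ (ne_of_gt hy)).contDiffWithinAt
  have hsq : ∀ f : HH → ℝ, Sm f → Sm (fun x => f x ^ 2) := by
    intro f hf
    have := hmul f f hf hf
    simpa only [sq] using this
  have sD2 : Sm D2 := hsub _ _ (hmul _ _ (hg.sm 0 0) (hg.sm 1 1)) (hsq _ (hg.sm 0 1))
  have sD3 : Sm D3 := hsub _ _ (hsub _ _ (hsub _ _ (hadd _ _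
    (hmul _ _ (hmul _ _ (hg.sm 0 0) (hg.sm 1 1)) (hg.sm 2 2))
    (hmul _ _ (hmul _ _ (hmul _ _ (hconst 2) (hg.sm 0 1)) (hg.sm 0 2)) (hg.sm 1 2)))
    (hmul _ _ (hg.sm 0 0) (hsq _ (hg.sm 1 2)))) (hmul _ _ (hg.sm 1 1) (hsq _ (hg.sm 0 2))))
    (hmul _ _ (hg.sm 2 2) (hsq _ (hg.sm 0 1)))
  let p : HH → ℝ := fun x => Real.sqrt (g x 0 0)
  let q : HH → ℝ := fun x => Real.sqrt (D2 x)
  let r : HH → ℝ := fun x => Real.sqrt (D3 x)
  have pp : ∀ x, 0 < p x := fun x => Real.sqrt_pos.2 (p1 x)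
  have pq : ∀ x, 0 < q x := fun x => Real.sqrt_pos.2 (p2 x)
  have pr : ∀ x, 0 < r x := fun x => Real.sqrt_pos.2 (p3 x)
  have sp : Sm p := hsqrt _ (hg.sm 0 0) p1
  have sq' : Sm q := hsqrt _ sD2 p2
  have sr : Sm r := hsqrt _ sD3 p3
  have sip : Sm (fun x => (p x)⁻¹) := hinv _ sp pp
  have siq : Sm (fun x => (q x)⁻¹) := hinv _ sq' pq
  have sir : Sm (fun x => (r x)⁻¹) := hinv _ sr pr
  have s0 : Sm (fun _ => (0 : ℝ)) := hconst 0
  have sm1 : Sm (fun x => g x 0 0 * g x 1 2 - g x 0 1 * g x 0 2) :=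
    hsub _ _ (hmul _ _ (hg.sm 0 0) (hg.sm 1 2)) (hmul _ _ (hg.sm 0 1) (hg.sm 0 2))
  have sm2 : Sm (fun x => g x 0 1 * g x 1 2 - g x 0 2 * g x 1 1) :=
    hsub _ _ (hmul _ _ (hg.sm 0 1) (hg.sm 1 2)) (hmul _ _ (hg.sm 0 2) (hg.sm 1 1))
  refine ⟨fun x => cA (g x 0 0) (g x 0 1) (g x 0 2) (g x 1 1) (g x 1 2) (p x) (q x) (r x),
    fun x => ct (g x 0 0) (g x 0 1) (g x 0 2) (g x 1 2) (p x) (q x) (r x), ⟨?_, ?_, ?_⟩, ?_⟩
  · intro x
    exact cA_mul _ _ _ _ _ _ _ _ (pp x).ne' (pq x).ne' (pr x).ne' (Real.sq_sqrt (p1 x).le)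
      (Real.sq_sqrt (p2 x).le)
  · intro a i
    fin_cases a <;> fin_cases i
    · exact sip
    · exact s0
    · exact s0
    · exact hneg _ (hmul _ _ (hg.sm 0 1) (hmul _ _ sip siq))
    · exact hmul _ _ sp siq
    · exact s0
    · exact hmul _ _ sm2 (hmul _ _ siq sir)
    · exact hneg _ (hmul _ _ sm1 (hmul _ _ siq sir))
    · exact hmul _ _ sq' sir
  · intro a i
    fin_cases a <;> fin_cases i
    · exact sp
    · exact s0
    · exact s0
    · exact hmul _ _ (hg.sm 0 1) sip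
    · exact hmul _ _ sq' sip
    · exact s0
    · exact hmul _ _ (hg.sm 0 2) sip
    · exact hmul _ _ sm1 (hmul _ _ sip siq)
    · exact hmul _ _ sr siq
  · intro x
    show ct (g x 0 0) (g x 0 1) (g x 0 2) (g x 1 2) (p x) (q x) (r x) *
      (ct (g x 0 0) (g x 0 1) (g x 0 2) (g x 1 2) (p x) (q x) (r x)).transpose = g x
    rw [ct_mul (g x 0 0) (g x 0 1) (g x 0 2) (g x 1 1) (g x 1 2) (g x 2 2) (p x) (q x) (r x)
      (pp x).ne' (pq x).ne' (Real.sq_sqrt (p1 x).le) (Real.sq_sqrt (p2 x).le)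
      (Real.sq_sqrt (p3 x).le)]
    ext i j
    fin_cases i <;> fin_cases j
    · rfl
    · rfl
    · rfl
    · exact hsy x 0 1
    · rfl
    · rfl
    · exact hsy x 0 2
    · exact hsy x 1 2
    · rfl

end Pool.Agent.Helper67.RF
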